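import Mathlib

/-!
# Mixed Tate motives over `ℤ` as graded representations: basic definitions and lemmas

The definitions and the general lemmas of `Pool.Agent.Results.MP_e54452_nt.ZeroBlocks`, for use in
other files.
-/

set_option autoImplicit false

open Complex Module

namespace Pool.Agent.N202.MTZ

/-- The odd integers `≥ 3`, the (negatives of the) degrees of the free generators `σ₃, σ₅, …` of the
graded Lie algebra of `U^dR`. -/
abbrev Letter := {n : ℕ // Odd n ∧ 3 ≤ n}

/-- A mixed Tate motive `M` over `ℤ` with coefficients in `K` (an object of `MT(ℤ) ⊗ K`), that is a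
representation of `G^dR = U^dR ⋊ 𝔾_m` on the `K`-vector space `V = ω_dR(M)`. -/
structure Motive (K V : Type) [Field K] [AddCommGroup V] [Module K V] where
  /-- the projection of `V` onto its part of degree `k`, the sum of copies of `ω_dR(ℚ(k))` -/
  pr : ℤ → V →ₗ[K] V
  pr_pr : ∀ (k l : ℤ) (v : V), pr k (pr l v) = if k = l then pr l v else 0
  sum_pr : ∃ D : Finset ℤ, ∀ v : V, ∑ k ∈ D, pr k v = v
  /-- the action of the generator `σ_n`, which maps degree `k` to degree `k + n` -/
  σ : Letter → V →ₗ[K] V
  raise : ∀ (n : Letter) (k : ℤ) (v : V), σ n (pr k v) = pr (k + ((n : ℕ) : ℤ)) (σ n v)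

variable {K V : Type} [Field K] [AddCommGroup V] [Module K V]

/-- The action of a word in the `σ_n`. -/
def Motive.word (M : Motive K V) : List Letter → V →ₗ[K] V
  | [] => LinearMap.id
  | n :: u => (M.σ n).comp (Motive.word M u)

/-- The motivic period `[M, w, s]`, for `w ∈ ω_dR(M)` and `s ∈ ω_B(M)^∨`.

The ring `P = O(Isom(ω_dR, ω_B)) ⊗ K` of motivic periods has the basis `t ^ e f_u` (`e` an integer,
`u` a word; `t` is the motivic `2πi`, and the `f_u` are the coordinates of `U^dR` dual to the words
in the `σ_n`); an element of `P` is given by its coefficients in this basis. -/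
def Motive.mper (M : Motive K V) (w : V) (s : Dual K V) : ℤ × List Letter → K :=
  fun p => s (M.pr (-p.1) (M.word p.2 w))

/-- The period map `per : P → ℂ`, the linear map with `t ^ e f_u ↦ (2πi) ^ e a_u`. -/
noncomputable def per (K : Type) [Field K] [Algebra K ℂ] (a : List Letter → ℂ)
    (x : ℤ × List Letter → K) : ℂ :=
  ∑ᶠ p : ℤ × List Letter, algebraMap K ℂ (x p) * ((2 * Real.pi * I) ^ p.1 * a p.2)

/-- The weights of `M` lie in an interval of length `N`: `M` is an iterated extension of copies of
`ℚ(b), …, ℚ(b + N)` for some `b`. -/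
def Motive.Width (M : Motive K V) (N : ℕ) : Prop :=
  ∀ k l : ℤ, M.pr k ≠ 0 → M.pr l ≠ 0 → l ≤ k + N

/-- the number `ζ(n)` -/
noncomputable def zeta (n : ℕ) : ℝ := ∑' k : ℕ, 1 / ((k : ℝ) + 1) ^ n

/-! ### words -/

/-- the total size of a word -/
def size (u : List Letter) : ℕ := (u.map Subtype.val).sum

@[simp] theorem size_nil : size [] = 0 := rfl

theorem size_cons (n : Letter) (u : List Letter) : size (n :: u) = (n : ℕ) + size u := by
  simp [size]

theorem size_pos {u : List Letter} (hu : u ≠ []) : 0 < size u := by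
  obtain ⟨n, u', rfl⟩ := List.exists_cons_of_ne_nil hu
  rw [size_cons]
  have := n.2.2
  omega

theorem finite_size (N : ℕ) : {u : List Letter | size u ≤ N}.Finite := by
  induction N using Nat.strong_induction_on with
  | _ N ih =>
    have hfin : {n : Letter | (n : ℕ) ≤ N}.Finite :=
      Set.Finite.of_finite_image (f := Subtype.val)
        ((Set.finite_Iic N).subset (by rintro _ ⟨n, hn, rfl⟩; exact hn))
        Subtype.val_injective.injOn
    refine Set.Finite.subset ((Set.finite_singleton ([] : List Letter)).union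
      (hfin.biUnion (t := fun n => (n :: ·) '' {u : List Letter | size u ≤ N - n ∧
        0 < N}) fun n _ => ?_)) ?_
    · refine Set.Finite.image _ ?_
      rcases Nat.eq_zero_or_pos N with h | h
      · refine Set.Finite.subset Set.finite_empty ?_
        rintro u ⟨_, h'⟩
        omega
      · refine (ih (N - n) ?_).subset fun u hu => hu.1
        have := n.2.2
        omega
    · intro u hu
      rcases u with _ | ⟨n, u⟩
      · left
        rfl
      · right
        have h1 : size (n :: u) ≤ N := hu
        rw [size_cons] at h1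
        have := n.2.2
        refine Set.mem_biUnion (x := n) (show (n : ℕ) ≤ N by omega) ⟨u, ⟨?_, by omega⟩, rfl⟩
        omega

/-- the words of size at most `N` -/
noncomputable def B (N : ℕ) : Finset (List Letter) := (finite_size N).toFinset

theorem mem_B {N : ℕ} {u : List Letter} : u ∈ B N ↔ size u ≤ N := by
  rw [B, Set.Finite.mem_toFinset]
  rfl

/-! ### filtration -/

theorem Motive.pr_word (M : Motive K V) (u : List Letter) (k : ℤ) (v : V) :
    M.pr k (M.word u v) = M.word u (M.pr (k - size u) v) := by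
  induction u generalizing k with
  | nil => simp [Motive.word]
  | cons n u ih =>
    show M.pr k (M.σ n (M.word u v)) = M.σ n (M.word u (M.pr (k - size (n :: u)) v))
    have h1 : k - (size (n :: u) : ℤ) = (k - ((n : ℕ) : ℤ)) - size u := by
      rw [size_cons]
      push_cast
      ring
    rw [h1, ← ih, M.raise, sub_add_cancel]

theorem Motive.word_append (M : Motive K V) (u : List Letter) (n : Letter) (v : V) :
    M.word (u ++ [n]) v = M.word u (M.σ n v) := by
  induction u with
  | nil => rfl
  | cons m u ih =>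
    show M.σ m (M.word (u ++ [n]) v) = M.σ m (M.word u (M.σ n v))
    rw [ih]

theorem Motive.pr_self (M : Motive K V) (k : ℤ) (v : V) : M.pr k (M.pr k v) = M.pr k v := by
  rw [M.pr_pr, if_pos rfl]

theorem Motive.pr_ne (M : Motive K V) {k l : ℤ} (h : k ≠ l) (v : V) :
    M.pr k (M.pr l v) = 0 := by
  rw [M.pr_pr, if_neg h]

/-- the subspace of the vectors with components in degrees `≥ k` only -/
def Motive.F (M : Motive K V) (k : ℤ) : Submodule K V where
  carrier := {v | ∀ i, i < k → M.pr i v = 0}
  add_mem' := by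
    intro v w hv hw i hi
    rw [map_add, hv i hi, hw i hi, add_zero]
  zero_mem' := fun i _ => map_zero _
  smul_mem' := by
    intro c v hv i hi
    rw [map_smul, hv i hi, smul_zero]

theorem Motive.mem_F (M : Motive K V) {k : ℤ} {v : V} :
    v ∈ M.F k ↔ ∀ i, i < k → M.pr i v = 0 := Iff.rfl

theorem Motive.F_anti (M : Motive K V) {k l : ℤ} (h : k ≤ l) : M.F l ≤ M.F k :=
  fun _ hv i hi => hv i (by omega)

theorem Motive.word_F (M : Motive K V) {k : ℤ} {v : V} (hv : v ∈ M.F k) (u : List Letter) :
    M.word u v ∈ M.F (k + size u) := by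
  intro i hi
  rw [M.pr_word, hv _ (by omega), map_zero]

theorem Motive.pr_F (M : Motive K V) (k : ℤ) (v : V) : M.pr k v ∈ M.F k := by
  intro i hi
  exact M.pr_ne (by omega) v

theorem Motive.sub_pr_F (M : Motive K V) {k : ℤ} {v : V} (hv : v ∈ M.F k) :
    v - M.pr k v ∈ M.F (k + 1) := by
  intro i hi
  rw [map_sub]
  rcases lt_or_eq_of_le (Int.lt_add_one_iff.1 hi) with h | h
  · rw [hv i h, M.pr_ne (by omega), sub_zero]
  · rw [h, M.pr_self, sub_self]

/-- subobjects -/
structure Motive.Stable (M : Motive K V) (X : Submodule K V) : Prop where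
  pr : ∀ k, ∀ v ∈ X, M.pr k v ∈ X
  σ : ∀ n, ∀ v ∈ X, M.σ n v ∈ X

theorem Motive.Stable.word {M : Motive K V} {X : Submodule K V} (h : M.Stable X)
    (u : List Letter) : ∀ v ∈ X, M.word u v ∈ X := by
  induction u with
  | nil => exact fun v hv => hv
  | cons n u ih => exact fun v hv => h.σ n _ (ih v hv)

theorem Motive.mper_pr (M : Motive K V) (w : V) (s : Dual K V) (i : ℤ)
    (h : M.mper w s = 0) : M.mper (M.pr i w) s = 0 := by
  funext p
  show s (M.pr (-p.1) (M.word p.2 (M.pr i w))) = 0
  rw [M.pr_word, M.pr_pr]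
  split_ifs with h1
  · rw [← h1, ← M.pr_word]
    exact congrFun h p
  · rw [map_zero, map_zero]

theorem Motive.mper_σ (M : Motive K V) (w : V) (s : Dual K V) (n : Letter)
    (h : M.mper w s = 0) : M.mper (M.σ n w) s = 0 := by
  funext p
  show s (M.pr (-p.1) (M.word p.2 (M.σ n w))) = 0
  rw [← M.word_append]
  exact congrFun h (p.1, p.2 ++ [n])

theorem Motive.mper_eval (M : Motive K V) {w : V} {s : Dual K V} (h : M.mper w s = 0) :
    s w = 0 := by
  obtain ⟨D, hD⟩ := M.sum_pr
  rw [← hD w, map_sum]
  refine Finset.sum_eq_zero fun k _ => ?_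
  have := congrFun h (-k, [])
  simpa [Motive.mper, Motive.word] using this

theorem Motive.mper_add (M : Motive K V) (v w : V) (s : Dual K V) :
    M.mper (v + w) s = M.mper v s + M.mper w s := by
  funext p
  simp [Motive.mper]

theorem Motive.mper_smul (M : Motive K V) (c : K) (w : V) (s : Dual K V) :
    M.mper (c • w) s = c • M.mper w s := by
  funext p
  simp [Motive.mper]

theorem Motive.mper_add_right (M : Motive K V) (w : V) (s t : Dual K V) :
    M.mper w (s + t) = M.mper w s + M.mper w t := by
  funext p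
  simp [Motive.mper]

theorem Motive.mper_smul_right (M : Motive K V) (c : K) (w : V) (s : Dual K V) :
    M.mper w (c • s) = c • M.mper w s := by
  funext p
  simp [Motive.mper]

/-! ### subquotients -/

section Sub

variable (M : Motive K V) {Q R : Submodule K V} (hQ : M.Stable Q) (hR : M.Stable R)

/-- the map induced on `R / Q` -/
def ind (φ : V →ₗ[K] V) (hφR : ∀ v ∈ R, φ v ∈ R) (hφQ : ∀ v ∈ Q, φ v ∈ Q) :
    (R ⧸ Q.comap R.subtype) →ₗ[K] (R ⧸ Q.comap R.subtype) :=
  Submodule.mapQ _ _ (φ.restrict hφR) fun _ hv => hφQ _ hv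

theorem ind_mk (φ : V →ₗ[K] V) (hφR : ∀ v ∈ R, φ v ∈ R) (hφQ : ∀ v ∈ Q, φ v ∈ Q) (v : R) :
    ind φ hφR hφQ (Submodule.Quotient.mk v) =
      Submodule.Quotient.mk (⟨φ v, hφR v v.2⟩ : R) := rfl

/-- the subquotient `R / Q` -/
def subq : Motive K (R ⧸ Q.comap R.subtype) where
  pr k := ind (M.pr k) (hR.pr k) (hQ.pr k)
  pr_pr k l v := by
    obtain ⟨v, rfl⟩ := Submodule.Quotient.mk_surjective _ v
    rw [ind_mk, ind_mk]
    split_ifs with h
    · congr 1
      apply Subtype.ext
      show M.pr k (M.pr l v) = M.pr l v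
      rw [M.pr_pr, if_pos h]
    · rw [Submodule.Quotient.mk_eq_zero]
      have h1 : (⟨M.pr k (M.pr l v), hR.pr k _ (hR.pr l _ v.2)⟩ : R) = 0 := by
        apply Subtype.ext
        exact M.pr_ne h v
      show (⟨M.pr k (M.pr l v), hR.pr k _ (hR.pr l _ v.2)⟩ : R) ∈ _
      rw [h1]
      exact Submodule.zero_mem _
  sum_pr := by
    obtain ⟨D, hD⟩ := M.sum_pr
    refine ⟨D, fun v => ?_⟩
    obtain ⟨v, rfl⟩ := Submodule.Quotient.mk_surjective _ v
    simp only [ind_mk]
    have h1 : (Submodule.Quotient.mk v : R ⧸ Q.comap R.subtype) =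
        Submodule.mkQ _ (∑ k ∈ D, (⟨M.pr k v, hR.pr k v v.2⟩ : R)) := by
      rw [Submodule.mkQ_apply]
      congr 1
      apply Subtype.ext
      rw [AddSubmonoidClass.coe_finsetSum]
      exact (hD v).symm
    rw [h1, map_sum]
    rfl
  σ n := ind (M.σ n) (hR.σ n) (hQ.σ n)
  raise n k v := by
    obtain ⟨v, rfl⟩ := Submodule.Quotient.mk_surjective _ v
    rw [ind_mk, ind_mk, ind_mk, ind_mk]
    congr 1
    apply Subtype.ext
    exact M.raise n k v

theorem subq_width {N : ℕ} (h : M.Width N) : (subq M hQ hR).Width N := by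
  intro k l hk hl
  refine h k l (fun h0 => hk ?_) (fun h0 => hl ?_)
  · apply LinearMap.ext
    intro v
    obtain ⟨v, rfl⟩ := Submodule.Quotient.mk_surjective _ v
    show (Submodule.Quotient.mk (⟨M.pr k v, _⟩ : R) : R ⧸ Q.comap R.subtype) = 0
    rw [Submodule.Quotient.mk_eq_zero]
    have h1 : (⟨M.pr k v, hR.pr k v v.2⟩ : R) = 0 := by
      apply Subtype.ext
      show M.pr k v = 0
      rw [h0]
      rfl
    rw [h1]
    exact Submodule.zero_mem _
  · apply LinearMap.ext
    intro v
    obtain ⟨v, rfl⟩ := Submodule.Quotient.mk_surjective _ v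
    show (Submodule.Quotient.mk (⟨M.pr l v, _⟩ : R) : R ⧸ Q.comap R.subtype) = 0
    rw [Submodule.Quotient.mk_eq_zero]
    have h1 : (⟨M.pr l v, hR.pr l v v.2⟩ : R) = 0 := by
      apply Subtype.ext
      show M.pr l v = 0
      rw [h0]
      rfl
    rw [h1]
    exact Submodule.zero_mem _

theorem subq_word (u : List Letter) (v : R) :
    (subq M hQ hR).word u (Submodule.Quotient.mk v) =
      Submodule.Quotient.mk (⟨M.word u v, hR.word u v v.2⟩ : R) := by
  induction u with
  | nil => rfl
  | cons n u ih =>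
    show (subq M hQ hR).σ n ((subq M hQ hR).word u (Submodule.Quotient.mk v)) = _
    rw [ih]
    rfl

theorem subq_mper (w : R) (s : Dual K V) (hs : ∀ v ∈ Q, s v = 0) :
    (subq M hQ hR).mper (Submodule.Quotient.mk w)
      ((Q.comap R.subtype).liftQ (s.comp R.subtype) (fun _ hv => hs _ hv)) = M.mper w s := by
  funext p
  show ((Q.comap R.subtype).liftQ (s.comp R.subtype) _) ((subq M hQ hR).pr (-p.1)
    ((subq M hQ hR).word p.2 (Submodule.Quotient.mk w))) = s (M.pr (-p.1) (M.word p.2 w))
  rw [subq_word]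
  rfl

end Sub

/-! ### counting dimensions -/

theorem finrank_le_add_one [FiniteDimensional K V] {X Y : Submodule K V} (x : V)
    (h : ∀ v ∈ X, ∃ c : K, v - c • x ∈ Y) : finrank K X ≤ finrank K Y + 1 := by
  have h1 : X ≤ Y ⊔ Submodule.span K {x} := by
    intro v hv
    obtain ⟨c, hc⟩ := h v hv
    rw [Submodule.mem_sup]
    exact ⟨v - c • x, hc, c • x, Submodule.smul_mem _ _ (Submodule.mem_span_singleton_self x),
      sub_add_cancel _ _⟩
  have h2 := Submodule.finrank_mono h1
  have h3 := Submodule.finrank_add_le_finrank_add_finrank Y (Submodule.span K {x})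
  have h4 : finrank K (Submodule.span K {x}) ≤ 1 := by
    have := finrank_span_le_card (R := K) ({x} : Set V)
    simpa using this
  omega

theorem count [FiniteDimensional K V] (T : V →ₗ[K] V) (hT : Function.Injective T)
    {Q R : Submodule K V} (hTQ : ∀ v ∈ Q, T v ∈ Q) (hTR : ∀ v ∈ R, T v ∈ R)
    (W : Submodule K V) (S : Submodule K (Dual K V)) (hTW : ∀ w ∈ W, ∀ s ∈ S, s (T w) = 0) :
    finrank K R + finrank K W + finrank K S + finrank K (W ⊓ Q : Submodule K V) +
        finrank K (S ⊓ R.dualAnnihilator : Submodule K (Dual K V)) ≤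
      finrank K V + finrank K Q + finrank K (W ⊓ R : Submodule K V) +
        finrank K (S ⊓ Q.dualAnnihilator : Submodule K (Dual K V)) := by
  have hS := Subspace.finrank_add_finrank_dualCoannihilator_eq S
  -- (1)
  have h1 : finrank K (W ⊓ Q : Submodule K V) ≤
      finrank K (S.dualCoannihilator ⊓ Q : Submodule K V) := by
    rw [(Submodule.equivMapOfInjective T hT (W ⊓ Q)).finrank_eq]
    refine Submodule.finrank_mono ?_
    rintro _ ⟨w, ⟨hw, hwQ⟩, rfl⟩
    refine ⟨?_, hTQ w hwQ⟩
    rw [SetLike.mem_coe, Submodule.mem_dualCoannihilator]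
    exact fun s hs => hTW w hw s hs
  have h2 : finrank K (S.dualCoannihilator ⊔ Q : Submodule K V) +
      finrank K (S ⊓ Q.dualAnnihilator : Submodule K (Dual K V)) = finrank K V := by
    have h3 := Subspace.finrank_add_finrank_dualAnnihilator_eq (S.dualCoannihilator ⊔ Q)
    rw [Submodule.dualAnnihilator_sup_eq, Subspace.dualCoannihilator_dualAnnihilator_eq] at h3
    exact h3
  have h3 := Submodule.finrank_sup_add_finrank_inf_eq S.dualCoannihilator Q
  -- (2)
  have h4 : finrank K (W ⊔ R : Submodule K V) ≤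
      finrank K (S ⊓ R.dualAnnihilator : Submodule K (Dual K V)).dualCoannihilator := by
    rw [(Submodule.equivMapOfInjective T hT (W ⊔ R)).finrank_eq]
    refine Submodule.finrank_mono ?_
    rintro _ ⟨x, hx, rfl⟩
    obtain ⟨w, hw, r, hr, rfl⟩ := Submodule.mem_sup.1 hx
    rw [Submodule.mem_dualCoannihilator]
    rintro s ⟨hs, hsR⟩
    rw [map_add, map_add, hTW w hw s hs, (Submodule.mem_dualAnnihilator s).1 hsR _ (hTR r hr),
      add_zero]
  have h5 := Subspace.finrank_add_finrank_dualCoannihilator_eq
    (S ⊓ R.dualAnnihilator : Submodule K (Dual K V))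
  have h6 := Submodule.finrank_sup_add_finrank_inf_eq W R
  omega

theorem finrank_subq [FiniteDimensional K V] {Q R : Submodule K V} (hQR : Q ≤ R) :
    finrank K (R ⧸ Q.comap R.subtype) + finrank K Q = finrank K R := by
  have h1 := Submodule.finrank_quotient_add_finrank (Q.comap R.subtype)
  have h2 : finrank K (Q.comap R.subtype) = finrank K Q :=
    (Submodule.comapSubtypeEquivOfLe hQR).finrank_eq
  omega

/-! ### the operator attached to a linear form -/

variable [Algebra K ℂ]

/-- the numbers `(2πi) ^ e a_u` -/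
noncomputable def cc (a : List Letter → ℂ) (e : ℤ) (u : List Letter) : ℂ :=
  (2 * Real.pi * I) ^ e * a u

theorem two_pi_I_ne : (2 * Real.pi * I : ℂ) ≠ 0 := Complex.two_pi_I_ne_zero

omit [Algebra K ℂ] in
theorem pr_word_large {N : ℕ} (M : Motive K V) (hN : M.Width N) (u : List Letter)
    (hu : u ∉ B N) (k : ℤ) (v : V) : M.pr k (M.word u v) = 0 := by
  rw [mem_B, not_le] at hu
  rw [M.pr_word]
  by_cases h1 : M.pr (k - size u) = 0
  · rw [h1, LinearMap.zero_apply, map_zero]
  · by_cases h2 : M.pr k = 0
    · rw [← M.pr_word, h2, LinearMap.zero_apply]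
    · exact absurd (hN _ _ h1 h2) (by omega)

omit [Algebra K ℂ] in
theorem pr_out {M : Motive K V} {D : Finset ℤ} (hD : ∀ v : V, ∑ k ∈ D, M.pr k v = v) {k : ℤ}
    (hk : k ∉ D) (v : V) : M.pr k v = 0 := by
  have h1 := congrArg (M.pr k) (hD v)
  rw [map_sum, Finset.sum_eq_zero] at h1
  · exact h1.symm
  · intro l hl
    exact M.pr_ne (fun h => hk (by rw [h]; exact hl)) v

theorem per_eq {N : ℕ} (M : Motive K V) (hN : M.Width N) {D : Finset ℤ}
    (hD : ∀ v : V, ∑ k ∈ D, M.pr k v = v) (a : List Letter → ℂ) (w : V) (s : Dual K V) :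
    per K a (M.mper w s) = ∑ i ∈ D, ∑ u ∈ B N, s (M.pr i (M.word u w)) • cc a (-i) u := by
  classical
  have h1 : per K a (M.mper w s) =
      ∑ p ∈ (D.image fun i => -i) ×ˢ B N, (M.mper w s p) • cc a p.1 p.2 := by
    rw [per]
    have h2 : ∀ p : ℤ × List Letter, algebraMap K ℂ (M.mper w s p) *
        ((2 * Real.pi * I) ^ p.1 * a p.2) = (M.mper w s p) • cc a p.1 p.2 := fun p => by
      rw [Algebra.smul_def]
      rfl
    simp only [h2]
    refine finsum_eq_sum_of_support_subset _ fun p hp => ?_
    rw [Function.mem_support] at hp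
    rw [Finset.mem_coe, Finset.mem_product]
    constructor
    · by_contra hne
      apply hp
      have h3 : M.mper w s p = 0 := by
        show s (M.pr (-p.1) (M.word p.2 w)) = 0
        rw [pr_out hD (fun h => hne (Finset.mem_image.2 ⟨-p.1, h, neg_neg _⟩)), map_zero]
      rw [h3, zero_smul]
    · by_contra hne
      apply hp
      have h3 : M.mper w s p = 0 := by
        show s (M.pr (-p.1) (M.word p.2 w)) = 0
        rw [pr_word_large M hN _ hne, map_zero]
      rw [h3, zero_smul]
  rw [h1, Finset.sum_product, Finset.sum_image (fun x _ y _ h => neg_injective h)]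
  refine Finset.sum_congr rfl fun i _ => Finset.sum_congr rfl fun u _ => ?_
  show s (M.pr (- -i) (M.word u w)) • _ = _
  rw [neg_neg]

theorem exists_operator [FiniteDimensional K V] {N : ℕ} (M : Motive K V) (hN : M.Width N)
    (a : List Letter → ℂ) (h0 : a [] = 1) (W : Submodule K V) (S : Submodule K (Dual K V))
    (hper : ∀ w ∈ W, ∀ s ∈ S, per K a (M.mper w s) = 0) :
    ∃ T : V →ₗ[K] V, Function.Injective T ∧ (∀ w ∈ W, ∀ s ∈ S, s (T w) = 0) ∧
      ∀ X : Submodule K V, M.Stable X → ∀ v ∈ X, T v ∈ X := by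
  classical
  obtain ⟨D, hD⟩ := M.sum_pr
  have : CharZero K := (algebraMap K ℂ).charZero
  have : Infinite K := Infinite.of_injective (Nat.cast : ℕ → K) Nat.cast_injective
  obtain ⟨f, hf⟩ := Module.exists_dual_forall_apply_ne_zero (K := K)
    (fun i : D => cc a (-(i : ℤ)) []) (fun i => by
      rw [cc, h0, mul_one]
      exact zpow_ne_zero _ two_pi_I_ne)
  let T : V →ₗ[K] V := ∑ i ∈ D, ∑ u ∈ B N, f (cc a (-i) u) • (M.pr i).comp (M.word u)
  have hT : ∀ v, T v = ∑ i ∈ D, ∑ u ∈ B N, f (cc a (-i) u) • M.pr i (M.word u v) := by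
    intro v
    simp only [T, LinearMap.sum_apply, LinearMap.smul_apply, LinearMap.comp_apply]
  refine ⟨T, ?_, ?_, ?_⟩
  · rw [injective_iff_map_eq_zero]
    intro v hv
    by_contra hv0
    have hne : (D.filter fun i => M.pr i v ≠ 0).Nonempty := by
      rw [Finset.nonempty_iff_ne_empty]
      intro he
      apply hv0
      rw [← hD v]
      refine Finset.sum_eq_zero fun k hk => ?_
      by_contra hk0
      have : k ∈ D.filter fun i => M.pr i v ≠ 0 := Finset.mem_filter.2 ⟨hk, hk0⟩
      rw [he] at this
      exact absurd this (Finset.notMem_empty k)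
    obtain ⟨k, hk, hmin⟩ := Finset.exists_min_image _ id hne
    rw [Finset.mem_filter] at hk
    have hlow : v ∈ M.F k := by
      intro i hi
      by_contra hi0
      have hiD : i ∈ D := by
        by_contra h
        exact hi0 (pr_out hD h v)
      have := hmin i (Finset.mem_filter.2 ⟨hiD, hi0⟩)
      simp only [id] at this
      omega
    have h1 : M.pr k (T v) = f (cc a (-k) []) • M.pr k v := by
      rw [hT, map_sum, Finset.sum_eq_single k]
      · rw [map_sum, Finset.sum_eq_single []]
        · rw [map_smul, M.pr_self]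
          rfl
        · intro u _ hu
          rw [map_smul, M.pr_self, M.word_F hlow u k, smul_zero]
          have := size_pos hu
          omega
        · intro h
          exact absurd (mem_B.2 (by simp)) h
      · intro i _ hi
        rw [map_sum]
        refine Finset.sum_eq_zero fun u _ => ?_
        rw [map_smul, M.pr_ne (Ne.symm hi), smul_zero]
      · intro h
        exact absurd hk.1 h
    rw [hv, map_zero] at h1
    have h2 := hf ⟨k, hk.1⟩
    exact (smul_ne_zero h2 hk.2) h1.symm
  · intro w hw s hs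
    have h1 := congrArg f (hper w hw s hs)
    rw [map_zero, per_eq M hN hD, map_sum] at h1
    rw [hT, map_sum, ← h1]
    refine Finset.sum_congr rfl fun i _ => ?_
    rw [map_sum, map_sum]
    refine Finset.sum_congr rfl fun u _ => ?_
    rw [map_smul, map_smul, smul_eq_mul, smul_eq_mul, mul_comm]
  · intro X hX v hv
    rw [hT]
    exact X.sum_mem fun i _ => X.sum_mem fun u _ => X.smul_mem _ (hX.pr i _ (hX.word u v hv))

omit [Algebra K ℂ] in
theorem exists_bounds (M : Motive K V) : ∃ D : Finset ℤ, (∀ v : V, ∑ k ∈ D, M.pr k v = v) ∧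
    ∃ N : ℕ, M.Width N := by
  obtain ⟨D, hD⟩ := M.sum_pr
  obtain ⟨lo, hlo⟩ := D.bddBelow
  obtain ⟨hi, hhi⟩ := D.bddAbove
  refine ⟨D, hD, (hi - lo).toNat, fun k l hk hl => ?_⟩
  have h1 : k ∈ D := by
    by_contra h
    exact hk (LinearMap.ext fun v => pr_out hD h v)
  have h2 : l ∈ D := by
    by_contra h
    exact hl (LinearMap.ext fun v => pr_out hD h v)
  have h3 := hlo h1
  have h4 := hhi h2
  omega

omit [Algebra K ℂ] in
theorem mper_support (M : Motive K V) (w : V) (s : Dual K V) :
    (Function.support (M.mper w s)).Finite := by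
  classical
  obtain ⟨D, hD, N, hN⟩ := exists_bounds M
  refine ((D.image fun i => -i) ×ˢ B N).finite_toSet.subset fun p hp => ?_
  rw [Function.mem_support] at hp
  rw [Finset.mem_coe, Finset.mem_product]
  constructor
  · by_contra hne
    apply hp
    show s (M.pr (-p.1) (M.word p.2 w)) = 0
    rw [pr_out hD (fun h => hne (Finset.mem_image.2 ⟨-p.1, h, neg_neg _⟩)), map_zero]
  · by_contra hne
    apply hp
    show s (M.pr (-p.1) (M.word p.2 w)) = 0
    rw [pr_word_large M hN _ hne, map_zero]

section Free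

variable (Ks : Finset ℤ) (D : ℕ)

/-- the index set of a basis: pairs of a degree in `Ks` and a word of size at most `D` -/
abbrev Idx := {q : ℤ × List Letter // q ∈ Ks ×ˢ B D}

theorem tail_mem {k : ℤ} {m : Letter} {u : List Letter} (h : (k, m :: u) ∈ Ks ×ˢ B D) :
    (k, u) ∈ Ks ×ˢ B D := by
  rw [Finset.mem_product, mem_B] at h ⊢
  refine ⟨h.1, ?_⟩
  have h2 : size (m :: u) ≤ D := h.2
  rw [size_cons] at h2
  show size u ≤ D
  omega

/-- the action of `σ_n` on the truncated free module: it maps the basis vector `(k, u)` to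
`(k, n :: u)` -/
def freeσ (n : Letter) (v : Idx Ks D → K) : Idx Ks D → K
  | ⟨(_, []), _⟩ => 0
  | ⟨(k, m :: u), h⟩ => if m = n then v ⟨(k, u), tail_mem Ks D h⟩ else 0

/-- truncated free module -/
def free : Motive K (Idx Ks D → K) where
  pr i :=
    { toFun := fun v q => if q.1.1 + size q.1.2 = i then v q else 0
      map_add' := by
        intro v w
        funext q
        by_cases h : q.1.1 + size q.1.2 = i <;> simp [h]
      map_smul' := by
        intro c v
        funext q
        by_cases h : q.1.1 + size q.1.2 = i <;> simp [h] }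
  pr_pr := by
    intro k l v
    funext q
    by_cases hkl : k = l
    · subst hkl
      by_cases h : q.1.1 + size q.1.2 = k <;> simp [h]
    · rw [if_neg hkl]
      by_cases h : q.1.1 + size q.1.2 = k
      · have h' : q.1.1 + size q.1.2 ≠ l := fun h' => hkl (h.symm.trans h')
        simp [h']
      · simp [h]
  sum_pr := by
    classical
    refine ⟨Finset.univ.image fun q : Idx Ks D => q.1.1 + size q.1.2, fun v => ?_⟩
    funext q
    rw [Finset.sum_apply]
    simp only [LinearMap.coe_mk, AddHom.coe_mk]
    rw [Finset.sum_ite_eq, if_pos (Finset.mem_image_of_mem _ (Finset.mem_univ q))]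
  σ n :=
    { toFun := freeσ Ks D n
      map_add' := by
        intro v w
        funext ⟨⟨k, u⟩, h⟩
        rcases u with _ | ⟨m, u⟩
        · simp [freeσ]
        · by_cases hm : m = n <;> simp [freeσ, hm]
      map_smul' := by
        intro c v
        funext ⟨⟨k, u⟩, h⟩
        rcases u with _ | ⟨m, u⟩
        · simp [freeσ]
        · by_cases hm : m = n <;> simp [freeσ, hm] }
  raise := by
    intro n i v
    funext ⟨⟨k, u⟩, h⟩
    rcases u with _ | ⟨m, u⟩
    · simp [freeσ]
    · by_cases hm : m = n
      · subst hm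
        have h1 : (k + (size (m :: u) : ℤ) = i + ((m : ℕ) : ℤ)) ↔ k + (size u : ℤ) = i := by
          rw [size_cons]
          push_cast
          omega
        by_cases h2 : k + (size u : ℤ) = i
        · simp [freeσ, h2, h1.2 h2]
        · have h3 : ¬ (k + (size (m :: u) : ℤ) = i + ((m : ℕ) : ℤ)) := fun h3 => h2 (h1.1 h3)
          simp [freeσ, h2, h3]
      · simp [freeσ, hm]

omit [Algebra K ℂ] in
theorem free_word (u : List Letter) (q : Idx Ks D) :
    (free (K := K) Ks D).word u (fun q => if q.1.2 = [] then 1 else 0) q =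
      if q.1.2 = u then 1 else 0 := by
  induction u generalizing q with
  | nil => rfl
  | cons n u ih =>
    show freeσ Ks D n ((free (K := K) Ks D).word u _) q = _
    obtain ⟨⟨k, u'⟩, h⟩ := q
    rcases u' with _ | ⟨m, u'⟩
    · simp [freeσ]
    · show (if m = n then (free (K := K) Ks D).word u _ ⟨(k, u'), tail_mem Ks D h⟩ else 0) = _
      rw [ih]
      by_cases hm : m = n <;> by_cases hu : u' = u <;> simp [hm, hu]

end Free

omit [Algebra K ℂ] in
theorem card_le_finrank [FiniteDimensional K V] (M : Motive K V) (Δ : Finset ℤ)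
    (h : ∀ k ∈ Δ, M.pr k ≠ 0) : Δ.card ≤ finrank K V := by
  classical
  have h1 : ∀ k : Δ, ∃ x, M.pr k x ≠ 0 := by
    intro k
    by_contra h'
    push Not at h'
    exact h k k.2 (LinearMap.ext h')
  choose x hx using h1
  have hli : LinearIndependent K (fun k : Δ => M.pr k (x k)) := by
    rw [Fintype.linearIndependent_iff]
    intro g hg l
    have h2 := congrArg (M.pr l) hg
    rw [map_sum, map_zero, Finset.sum_eq_single l] at h2
    · rw [map_smul, M.pr_self] at h2
      exact (smul_eq_zero.1 h2).resolve_right (hx l)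
    · intro k _ hk
      rw [map_smul, M.pr_ne (fun h' => hk (Subtype.ext h'.symm)), smul_zero]
    · intro h'
      exact absurd (Finset.mem_univ l) h'
  simpa using hli.fintype_card_le_finrank


end Pool.Agent.N202.MTZ
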